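import Mathlib
import Pool.Agent.K3h15.RC.Final

/-!
# Ramsey Cayley graphs on `(ℤ/L_n)^n`, `L_n = lcm(1, 2, …, 2^(2^n))`

There is an absolute constant `C` such that for every `n ≥ 1` the group `G_n = (ℤ/L_n)^n` has a
`C`-Ramsey Cayley graph. This answers the question of the problem in the affirmative.

Outline of the proof. The graph is a uniformly random Cayley graph. Put `N = |G_n|`.

* A set of `1000 p` points contains a set `A` of `s = 1000 + p` points with
  `M = |A - A| ≥ 500 p ≥ 240 s` (`exists_small_subset`).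
* Such an `A` is a clique (an independent set) with probability at most `2 ^ (-(M-1)/2)`, so it is
  enough to bound the number of sets `A` with `|A| = s` and `|A - A| = M` by `2 ^ (3 M / 8 + 2)`
  (`fam_le`), if `s` is a large constant times `log N`.
* `A` is the set of points visited by a closed walk of length `2 (s - 1)` with steps `± d_j`,
  `d_j ∈ A - A`, where the sum of the labels `j` over the walk is at most `4 M` (`exists_walk`);
  there are only few label sequences (`card_words`).
* If the differences `d_j` satisfy `q` independent relations of the form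
  `x_a - x_b = x_c - x_e` between formal positions `x_i` of the walk, but no more, then a growth
  lemma (`growth`) shows `3 (t - q) s ≤ 100 M`, where `t` is the number of the `d_j`
  (`exists_relations`), and the number of tuples `(d_j)` satisfying `q` given independent relations
  is at most `N ^ (t - q)` times a small factor (`count_sol`).
* The growth lemma: if a finite subset `A` of an abelian group contains `a₀, a₀ + v_1, …, a₀ + v_r`
  with `v_1, …, v_r` linearly independent over `ℤ`, then `3 r |A| ≤ 100 |A - A|`. It is reduced by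
  compressions to sums of down-sets in `ℕ ^ r` (`down_growth`).
-/

set_option autoImplicit false

namespace Pool.Agent.Results.MP_bf05d5_co.RamseyCayley

open Finset Pointwise

/-- The Cayley graph of an abelian group `G` with respect to a symmetric set `S ⊆ G \ {0}`: the
vertex set is `G`, and `x` and `y` are adjacent exactly when `y - x ∈ S`. -/
def cayley {G : Type} [AddCommGroup G] (S : Set G) (hsymm : ∀ g ∈ S, -g ∈ S)
    (hzero : (0 : G) ∉ S) : SimpleGraph G where
  Adj x y := y - x ∈ S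
  symm := ⟨by
    intro x y h
    have h1 := hsymm _ h
    rwa [neg_sub] at h1⟩
  loopless := ⟨by
    intro x h
    rw [sub_self] at h
    exact hzero h⟩

/-- A graph on a finite vertex set `V` is `C`-Ramsey if each of its cliques and each of its
independent sets has at most `C * log₂ |V|` vertices. -/
def IsRamsey (C : ℝ) {V : Type} (Γ : SimpleGraph V) : Prop :=
  ∀ T : Finset V, (Γ.IsClique T ∨ Γ.IsIndepSet T) → (T.card : ℝ) ≤ C * Real.logb 2 (Nat.card V)

/-- `L_n = lcm(1, 2, …, 2^(2^n))`. -/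
def L (n : ℕ) : ℕ := (Finset.Icc 1 (2 ^ (2 ^ n))).lcm id

lemma L_ne_zero (n : ℕ) : L n ≠ 0 := by
  unfold L
  rw [Ne, Finset.lcm_eq_zero_iff]
  rintro ⟨x, hx, h0⟩
  rw [Finset.mem_Icc] at hx
  simp only [id] at h0
  omega

lemma le_L (n : ℕ) : 2 ^ (2 ^ n) ≤ L n := by
  apply Nat.le_of_dvd (Nat.pos_of_ne_zero (L_ne_zero n))
  have h : (2 ^ (2 ^ n)) ∈ Finset.Icc 1 (2 ^ (2 ^ n)) :=
    Finset.mem_Icc.mpr ⟨Nat.one_le_two_pow, le_refl _⟩
  exact Finset.dvd_lcm (f := id) h

lemma poly_le (y : ℕ) : ((44 + y) * (y + 5)) ^ 2 ≤ 2 ^ 30 * 2 ^ y := by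
  induction y with
  | zero => norm_num
  | succ y ih =>
    have h1 : 5 * ((44 + (y + 1)) * (y + 1 + 5)) ≤ 7 * ((44 + y) * (y + 5)) := by nlinarith
    have h2 := Nat.pow_le_pow_left h1 2
    have h3 : (2 : ℕ) ^ (y + 1) = 2 * 2 ^ y := by rw [pow_succ]; ring
    rw [h3]
    nlinarith

/-- There is an absolute constant `C` such that for every `n ≥ 1` the group
`G_n = (ℤ/L_n)^n`, `L_n = lcm(1, 2, …, 2^(2^n))`, has a `C`-Ramsey Cayley graph. -/
theorem result : ∃ C : ℝ, 1 / 2 < C ∧ ∀ n : ℕ, 1 ≤ n →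
    ∃ (S : Set (Fin n → ZMod (L n))) (hsymm : ∀ g ∈ S, -g ∈ S)
      (hzero : (0 : Fin n → ZMod (L n)) ∉ S), IsRamsey C (cayley S hsymm hzero) := by
  classical
  refine ⟨2000 * 2 ^ 40, by norm_num, ?_⟩
  intro n hn
  have : NeZero (L n) := ⟨L_ne_zero n⟩
  set N := L n ^ n with hN
  have hcardG : Nat.card (Fin n → ZMod (L n)) = N := by
    rw [Nat.card_eq_fintype_card, Fintype.card_fun, ZMod.card, Fintype.card_fin]
  have hN1 : 2 ^ (n * 2 ^ n) ≤ N := by
    calc 2 ^ (n * 2 ^ n) = (2 ^ (2 ^ n)) ^ n := by rw [← pow_mul, mul_comm]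
      _ ≤ L n ^ n := Nat.pow_le_pow_left (le_L n) n
  have hNpos : N ≠ 0 := pow_ne_zero _ (L_ne_zero n)
  set lam := Nat.log 2 N + 1 with hlam
  have hlam1 : N ≤ 2 ^ lam := (Nat.lt_pow_succ_log_self (by norm_num) N).le
  have hlam2 : 2 ^ n ≤ lam := by
    have h1 : n * 2 ^ n ≤ Nat.log 2 N := Nat.le_log_of_pow_le (by norm_num) hN1
    have h2 : 2 ^ n ≤ n * 2 ^ n := Nat.le_mul_of_pos_left _ (by omega)
    omega
  set y := Nat.log 2 lam + 1 with hy
  have hy1 : lam ≤ 2 ^ y := (Nat.lt_pow_succ_log_self (by norm_num) lam).le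
  have hy2 : 2 ^ y ≤ 2 * lam := by
    have := Nat.pow_log_le_self 2 (x := lam) (by omega)
    rw [hy, pow_succ]
    omega
  have hny : n ≤ y := by
    have : n ≤ Nat.log 2 lam := Nat.le_log_of_pow_le (by norm_num) hlam2
    omega
  set p := 2 ^ 40 * lam with hp
  have hlampos : 1 ≤ lam := by omega
  have hp1 : 1000 ≤ p := by omega
  have key : ∀ a b : ℕ, 1000 ≤ a → 1000 * a ≤ 2 * b → 240 * (1000 + a) ≤ b := by
    intro a b _ _
    omega
  obtain ⟨e, he⟩ := Countable.exists_injective_nat (Fin n → ZMod (L n))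
  obtain ⟨c, hc⟩ := K3h15.RC.exists_colouring (fun _ : Fin n => L n) (1000 + p) lam (44 + y)
    (by omega)
    (by
      rw [Finset.prod_const, Finset.card_univ, Fintype.card_fin]
      exact hlam1)
    (by omega)
    (by
      rw [pow_add]
      omega)
    (by
      rw [Fintype.card_fin]
      have h1 := poly_le y
      calc (96 * ((44 + y) * (n + 5))) ^ 2 ≤ (96 * ((44 + y) * (y + 5))) ^ 2 := by gcongr
        _ = 9216 * ((44 + y) * (y + 5)) ^ 2 := by ring
        _ ≤ 9216 * (2 ^ 30 * 2 ^ y) := Nat.mul_le_mul_left _ h1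
        _ ≤ 240 * (1000 + p) := by omega)
    e
  refine ⟨{g | g ≠ 0 ∧ c (K3h15.RC.rep e g) = true}, ?_, ?_, ?_⟩
  · rintro g ⟨hg, hcg⟩
    refine ⟨neg_ne_zero.mpr hg, ?_⟩
    rw [K3h15.RC.rep_neg he]
    exact hcg
  · rintro ⟨h, _⟩
    exact h rfl
  · intro T hT
    have hlt : T.card < 1000 * p := by
      by_contra hcon
      push Not at hcon
      obtain ⟨A, hAT, hAcard, hAdiff⟩ := K3h15.RC.exists_small_subset T 1000 p (by norm_num)
        (by omega) hcon
      have hM : 240 * (1000 + p) ≤ (A - A).card := key p _ hp1 hAdiff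
      rcases hT with hT | hT
      · obtain ⟨h, hh, hne⟩ := hc A hAcard hM true
        rw [K3h15.RC.Dset, Finset.mem_image] at hh
        obtain ⟨g, hg, rfl⟩ := hh
        rw [Finset.mem_erase, Finset.mem_sub] at hg
        obtain ⟨hg0, a, ha, b, hb, rfl⟩ := hg
        have hab : b ≠ a := fun h => hg0 (by rw [h, sub_self])
        have := hT (Finset.mem_coe.mpr (hAT hb)) (Finset.mem_coe.mpr (hAT ha)) hab
        exact hne this.2
      · obtain ⟨h, hh, hne⟩ := hc A hAcard hM false
        rw [K3h15.RC.Dset, Finset.mem_image] at hh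
        obtain ⟨g, hg, rfl⟩ := hh
        rw [Finset.mem_erase, Finset.mem_sub] at hg
        obtain ⟨hg0, a, ha, b, hb, rfl⟩ := hg
        have hab : b ≠ a := fun h => hg0 (by rw [h, sub_self])
        have := hT (Finset.mem_coe.mpr (hAT hb)) (Finset.mem_coe.mpr (hAT ha)) hab
        apply this
        refine ⟨hg0, ?_⟩
        simpa using hne
    rw [hcardG]
    have h1 : (Nat.log 2 N : ℝ) ≤ Real.logb 2 N := Real.natLog_le_logb N 2
    have h2 : (1 : ℝ) ≤ Real.logb 2 N := by
      have h3 : (1 : ℝ) ≤ (Nat.log 2 N : ℝ) := by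
        have h4 : 1 ≤ Nat.log 2 N := by
          have h5 : n * 2 ^ n ≤ Nat.log 2 N := Nat.le_log_of_pow_le (by norm_num) hN1
          have h6 : 1 ≤ n * 2 ^ n := Nat.mul_pos hn (by positivity)
          omega
        exact_mod_cast h4
      linarith
    have h3 : (T.card : ℝ) ≤ 1000 * (2 ^ 40 * ((Nat.log 2 N : ℝ) + 1)) := by
      have h4 : T.card ≤ 1000 * (2 ^ 40 * (Nat.log 2 N + 1)) := by
        rw [← hlam, ← hp]; exact hlt.le
      exact_mod_cast h4
    calc (T.card : ℝ) ≤ 1000 * (2 ^ 40 * ((Nat.log 2 N : ℝ) + 1)) := h3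
      _ ≤ 1000 * (2 ^ 40 * (Real.logb 2 N + Real.logb 2 N)) := by gcongr
      _ = 2000 * 2 ^ 40 * Real.logb 2 N := by ring

end Pool.Agent.Results.MP_bf05d5_co.RamseyCayley
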